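import Pool.Agent.Lib.MP_39c2b7_co.Interfaces

/-!
# Module SEP: an induced cycle has exactly two sides
-/

namespace StrongArb.H16

open SimpleGraph

variable {V : Type} {G : SimpleGraph V}

/-! ### Components of the complement of a set, as sets of vertices -/

/-- one step inside `S` -/
def Rel (G : SimpleGraph V) (S : Set V) (p q : V) : Prop := G.Adj p q ∧ p ∈ S ∧ q ∈ S

/-- the vertices reachable from `x` inside `S` -/
def comp (G : SimpleGraph V) (S : Set V) (x : V) : Set V :=
  {y | Relation.ReflTransGen (Rel G S) x y}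

lemma comp_self (S : Set V) (x : V) : x ∈ comp G S x := Relation.ReflTransGen.refl

lemma comp_sub {S : Set V} {x : V} (hx : x ∈ S) {y : V} (hy : y ∈ comp G S x) : y ∈ S := by
  induction hy with
  | refl => exact hx
  | tail _ h _ => exact h.2.2

lemma comp_step {S : Set V} {x p q : V} (hp : p ∈ comp G S x) (h : G.Adj p q) (hpS : p ∈ S)
    (hqS : q ∈ S) : q ∈ comp G S x :=
  Relation.ReflTransGen.tail hp ⟨h, hpS, hqS⟩

lemma comp_symm {S : Set V} {x y : V} (hy : y ∈ comp G S x) : x ∈ comp G S y := by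
  have : Std.Symm (Rel G S) := ⟨fun a b h => ⟨h.1.symm, h.2.2, h.2.1⟩⟩
  exact (inferInstance : Std.Symm (Relation.ReflTransGen (Rel G S))).symm _ _ hy

lemma comp_eq {S : Set V} {x y : V} (hy : y ∈ comp G S x) : comp G S y = comp G S x := by
  ext z
  exact ⟨fun h => Relation.ReflTransGen.trans hy h,
    fun h => Relation.ReflTransGen.trans (comp_symm hy) h⟩

lemma comp_conn {S : Set V} {x : V} : (G.induce (comp G S x)).Connected := by
  have key : ∀ y (hy : y ∈ comp G S x),
      (G.induce (comp G S x)).Reachable ⟨x, comp_self S x⟩ ⟨y, hy⟩ := by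
    intro y hy
    induction hy with
    | refl => exact Reachable.refl _
    | @tail b c hb h ih =>
      have hb' : b ∈ comp G S x := hb
      refine (ih).trans (Adj.reachable ?_)
      exact h.1
  haveI : Nonempty (comp G S x) := ⟨⟨x, comp_self S x⟩⟩
  exact ⟨fun a b => (key a a.2).symm.trans (key b b.2)⟩

/-- an arc is connected -/
lemma arc_conn (f : ℕ → V) (s t : ℕ) (h : s ≤ t)
    (hadj : ∀ i, s ≤ i → i < t → G.Adj (f i) (f (i + 1))) :
    (G.induce (f '' Set.Icc s t)).Connected := by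
  have hs : f s ∈ f '' Set.Icc s t := ⟨s, ⟨le_rfl, h⟩, rfl⟩
  have key : ∀ d, ∀ hd : s + d ≤ t,
      (G.induce (f '' Set.Icc s t)).Reachable ⟨f s, hs⟩
        ⟨f (s + d), ⟨s + d, ⟨by omega, hd⟩, rfl⟩⟩ := by
    intro d
    induction d with
    | zero => intro _; exact Reachable.refl _
    | succ d ih =>
      intro hd
      refine (ih (by omega)).trans (Adj.reachable ?_)
      exact hadj (s + d) (by omega) (by omega)
  have key2 : ∀ a : (f '' Set.Icc s t), (G.induce (f '' Set.Icc s t)).Reachable ⟨f s, hs⟩ a := by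
    rintro ⟨_, i, ⟨hi1, hi2⟩, rfl⟩
    have := key (i - s) (by omega)
    have e : s + (i - s) = i := by omega
    simp only [e] at this
    exact this
  haveI : Nonempty (f '' Set.Icc s t) := ⟨⟨f s, hs⟩⟩
  exact ⟨fun a b => (key2 a).symm.trans (key2 b)⟩

/-- leaving a component -/
lemma exit {S T : Set V} {x y : V} (hx : x ∈ S) (hxT : x ∉ T) (hy : y ∈ comp G S x) :
    y ∈ comp G (S \ T) x ∨ ∃ p ∈ comp G (S \ T) x, ∃ q ∈ T, G.Adj p q := by
  induction hy with
  | refl => exact Or.inl (comp_self _ _)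
  | @tail b c hb h ih =>
    rcases ih with ih | ih
    · by_cases hc : c ∈ T
      · exact Or.inr ⟨b, ih, c, hc, h.1⟩
      · left
        have hbS : b ∈ S \ T := comp_sub (G := G) (S := S \ T) ⟨hx, hxT⟩ ih
        exact comp_step ih h.1 hbS ⟨h.2.2, hc⟩
    · exact Or.inr ih

/-! ### Induced cycles as functions -/

/-- an induced cycle as a function on `{0, …, n - 1}` -/
structure Cyc (G : SimpleGraph V) (n : ℕ) (f : ℕ → V) : Prop where
  four : 4 ≤ n
  inj : ∀ i j, i < n → j < n → f i = f j → i = j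
  adj : ∀ i j, i < n → j < n → (G.Adj (f i) (f j) ↔ CycAdj n i j)

lemma cycAdj_iff {n i j : ℕ} (hi : i < n) (hj : j < n) :
    CycAdj n i j ↔ (j ≡ i + 1 [MOD n] ∨ i ≡ j + 1 [MOD n]) := by
  unfold CycAdj Nat.ModEq
  rw [Nat.mod_eq_of_lt hi, Nat.mod_eq_of_lt hj]

lemma cyc_shift {n : ℕ} {f : ℕ → V} (h : Cyc G n f) (r : ℕ) :
    Cyc G n (fun i => f ((i + r) % n)) := by
  have hn : 0 < n := by have := h.four; omega
  refine ⟨h.four, ?_, ?_⟩
  · intro i j hi hj hij
    have h1 := h.inj _ _ (Nat.mod_lt _ hn) (Nat.mod_lt _ hn) hij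
    have h2 : i + r ≡ j + r [MOD n] := h1
    have h3 : i ≡ j [MOD n] := Nat.ModEq.add_right_cancel' r h2
    unfold Nat.ModEq at h3
    rwa [Nat.mod_eq_of_lt hi, Nat.mod_eq_of_lt hj] at h3
  · intro i j hi hj
    show G.Adj (f ((i + r) % n)) (f ((j + r) % n)) ↔ _
    rw [h.adj _ _ (Nat.mod_lt _ hn) (Nat.mod_lt _ hn), cycAdj_iff (Nat.mod_lt _ hn)
      (Nat.mod_lt _ hn), cycAdj_iff hi hj]
    have e1 : ∀ i j : ℕ, ((j + r) % n ≡ (i + r) % n + 1 [MOD n]) ↔ (j ≡ i + 1 [MOD n]) := by
      intro i j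
      constructor
      · intro h1
        have h2 : j + r ≡ i + 1 + r [MOD n] :=
          calc j + r ≡ (j + r) % n [MOD n] := (Nat.mod_modEq _ _).symm
            _ ≡ (i + r) % n + 1 [MOD n] := h1
            _ ≡ (i + r) + 1 [MOD n] := Nat.ModEq.add_right 1 (Nat.mod_modEq _ _)
            _ = i + 1 + r := by ring
        exact Nat.ModEq.add_right_cancel' r h2
      · intro h1
        calc (j + r) % n ≡ j + r [MOD n] := Nat.mod_modEq _ _
          _ ≡ i + 1 + r [MOD n] := Nat.ModEq.add_right r h1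
          _ = (i + r) + 1 := by ring
          _ ≡ (i + r) % n + 1 [MOD n] := (Nat.ModEq.add_right 1 (Nat.mod_modEq _ _)).symm
    rw [e1, e1]

lemma mem_shift {n : ℕ} {f : ℕ → V} (hn : 0 < n) (r : ℕ) (x : V) :
    (∃ i < n, f ((i + r) % n) = x) ↔ (∃ i < n, f i = x) := by
  constructor
  · rintro ⟨i, _, rfl⟩
    exact ⟨(i + r) % n, Nat.mod_lt _ hn, rfl⟩
  · rintro ⟨i, hi, rfl⟩
    refine ⟨(i + (n - r % n)) % n, Nat.mod_lt _ hn, ?_⟩
    congr 1
    have hr : r % n < n := Nat.mod_lt _ hn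
    have h1 : (i + (n - r % n)) % n + r ≡ i [MOD n] :=
      calc (i + (n - r % n)) % n + r ≡ (i + (n - r % n)) + r [MOD n] :=
            Nat.ModEq.add_right r (Nat.mod_modEq _ _)
        _ ≡ (i + (n - r % n)) + r % n [MOD n] := Nat.ModEq.add_left _ (Nat.mod_modEq _ _).symm
        _ = i + n := by omega
        _ ≡ i [MOD n] := by simp [Nat.ModEq]
    unfold Nat.ModEq at h1
    rw [h1, Nat.mod_eq_of_lt hi]

/-- a list as a function -/
lemma exists_cyc {l : List V} (h : IsIndCycle G l) :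
    ∃ f : ℕ → V, Cyc G l.length f ∧ (∀ x, (∃ i < l.length, f i = x) ↔ x ∈ l) := by
  have hl := h.len
  have hpos : 0 < l.length := by omega
  refine ⟨fun i => l[i % l.length]'(Nat.mod_lt _ hpos), ⟨hl, ?_, ?_⟩, ?_⟩
  · intro i j hi hj hij
    simp only [Nat.mod_eq_of_lt hi, Nat.mod_eq_of_lt hj] at hij
    exact (h.nodup.getElem_inj_iff).1 hij
  · intro i j hi hj
    simp only [Nat.mod_eq_of_lt hi, Nat.mod_eq_of_lt hj]
    exact h.adj i j hi hj
  · intro x
    constructor
    · rintro ⟨i, _, rfl⟩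
      exact List.getElem_mem _
    · intro hx
      obtain ⟨i, hi, rfl⟩ := List.getElem_of_mem hx
      exact ⟨i, hi, by simp only [Nat.mod_eq_of_lt hi]⟩

/-! ### The local structure at a vertex of the cycle -/

/-- The situation at the vertex `u` of the cycle `C`: two components of the complement. -/
structure Local (G : SimpleGraph V) (C : Set V) (u x0 y0 : V) : Prop where
  hx : x0 ∉ C
  hy : y0 ∉ C
  ne : y0 ∉ comp G Cᶜ x0
  nbr : ∀ x, G.Adj u x → x ∉ C → x ∈ comp G Cᶜ x0 ∨ x ∈ comp G Cᶜ y0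
  apex : ∀ z ∈ C, G.Adj u z → (∃ p ∈ comp G Cᶜ x0, G.Adj p u ∧ G.Adj p z) ∧
    (∃ q ∈ comp G Cᶜ y0, G.Adj q u ∧ G.Adj q z)

lemma Local.symm {C : Set V} {u x0 y0 : V} (h : Local G C u x0 y0) : Local G C u y0 x0 :=
  ⟨h.hy, h.hx, fun h1 => h.ne (comp_symm h1), fun x h1 h2 => (h.nbr x h1 h2).symm,
    fun z hz h1 => (h.apex z hz h1).symm⟩

lemma Local.trans {C : Set V} {u x0 y0 x1 y1 : V} (h : Local G C u x0 y0)
    (h1 : x1 ∈ comp G Cᶜ x0) (h2 : y1 ∈ comp G Cᶜ y0) : Local G C u x1 y1 := by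
  have e1 := comp_eq h1
  have e2 := comp_eq h2
  have hx1 : x1 ∉ C := comp_sub (S := Cᶜ) h.hx h1
  have hy1 : y1 ∉ C := comp_sub (S := Cᶜ) h.hy h2
  refine ⟨hx1, hy1, ?_, ?_, ?_⟩
  · rw [e1]
    intro h3
    apply h.ne
    have e3 := comp_eq h3
    rw [e2] at e3
    rw [← e3]
    exact comp_self _ _
  · rw [e1, e2]; exact h.nbr
  · rw [e1, e2]; exact h.apex

/-- the main step -/
lemma local_of (hK : ¬ HasK5Minor G) {n m : ℕ} {g h : ℕ → V} (hg : Cyc G n g) (hh : Cyc G m h)
    (hlink : ∀ x, G.Adj (g 0) x ↔ ∃ i < m, h i = x) (h0 : h 0 = g (n - 1)) {C : Set V}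
    (hC : ∀ x, x ∈ C ↔ ∃ i < n, g i = x) : ∃ x0 y0, Local G C (g 0) x0 y0 := by
  have hn4 := hg.four
  have hm4 := hh.four
  -- neighbours of u in C
  have hadj0 : ∀ j, j < n → (G.Adj (g 0) (g j) ↔ (j = 1 ∨ j = n - 1)) := by
    intro j hj
    rw [hg.adj 0 j (by omega) hj]
    unfold CycAdj
    rw [Nat.mod_eq_of_lt (by omega : 0 + 1 < n)]
    constructor
    · rintro (h1 | h1)
      · left; omega
      · right
        by_contra hcon
        rw [Nat.mod_eq_of_lt (by omega : j + 1 < n)] at h1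
        omega
    · rintro (h1 | h1)
      · left; omega
      · right
        subst h1
        rw [Nat.sub_add_cancel (by omega : 1 ≤ n), Nat.mod_self]
  obtain ⟨k, hk, hkb⟩ := (hlink (g 1)).1 ((hadj0 1 (by omega)).2 (Or.inl rfl))
  -- adjacency in the link
  have hstep : ∀ i, i + 1 < m → G.Adj (h i) (h (i + 1)) := by
    intro i hi
    rw [hh.adj i (i + 1) (by omega) hi]
    left
    rw [Nat.mod_eq_of_lt hi]
  have hlast : G.Adj (h (m - 1)) (h 0) := by
    rw [hh.adj (m - 1) 0 (by omega) (by omega)]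
    left
    rw [Nat.sub_add_cancel (by omega : 1 ≤ m), Nat.mod_self]
  -- a and b are not adjacent
  have hab : ¬ G.Adj (g (n - 1)) (g 1) := by
    rw [hg.adj (n - 1) 1 (by omega) (by omega)]
    unfold CycAdj
    rw [Nat.sub_add_cancel (by omega : 1 ≤ n), Nat.mod_self,
      Nat.mod_eq_of_lt (by omega : 1 + 1 < n)]
    omega
  have hk0 : k ≠ 0 := by
    intro h1
    rw [h1, h0] at hkb
    have := hg.inj (n - 1) 1 (by omega) (by omega) hkb
    omega
  have hk1 : k ≠ 1 := by
    intro h1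
    apply hab
    rw [← h0, ← hkb, h1]
    exact hstep 0 (by omega)
  have hkm : k ≠ m - 1 := by
    intro h1
    apply hab
    rw [← h0, ← hkb, h1]
    exact hlast.symm
  -- link vertices outside C
  have hout : ∀ i, i < m → i ≠ 0 → i ≠ k → h i ∉ C := by
    intro i hi hi0 hik hin
    obtain ⟨j, hj, hji⟩ := (hC _).1 hin
    have h1 : G.Adj (g 0) (g j) := by rw [hji]; exact (hlink _).2 ⟨i, hi, rfl⟩
    rcases (hadj0 j hj).1 h1 with h2 | h2
    · subst h2
      rw [hkb.symm] at hji
      exact hik (hh.inj _ _ hi hk hji.symm)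
    · subst h2
      rw [← h0] at hji
      exact hi0 (hh.inj _ _ hi (by omega) hji.symm)
  -- the two arcs in one component each
  have harc1 : ∀ (T : Set V), (∀ i, 1 ≤ i → i < k → h i ∈ T) →
      ∀ i, 1 ≤ i → i < k → h i ∈ comp G T (h 1) := by
    intro T hT i hi
    induction i, hi using Nat.le_induction with
    | base => intro _; exact comp_self _ _
    | succ i hi ih =>
      intro hik
      exact comp_step (ih (by omega)) (hstep i (by omega)) (hT i hi (by omega))
        (hT (i + 1) (by omega) hik)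
  have harc2 : ∀ i, k + 1 ≤ i → i < m → h i ∈ comp G Cᶜ (h (k + 1)) := by
    intro i hi
    induction i, hi using Nat.le_induction with
    | base => intro _; exact comp_self _ _
    | succ i hi ih =>
      intro him
      exact comp_step (ih (by omega)) (hstep i (by omega)) (hout i (by omega) (by omega) (by omega))
        (hout (i + 1) (by omega) (by omega) (by omega))
  have hC1 : ∀ i, 1 ≤ i → i < k → h i ∈ Cᶜ := fun i h1 h2 =>
    hout i (by omega) (by omega) (by omega)
  have hx0C : h 1 ∉ C := hout 1 (by omega) (by omega) (by omega)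
  refine ⟨h 1, h (k + 1), hx0C, hout (k + 1) (by omega) (by omega) (by omega), ?_, ?_, ?_⟩
  · -- the K5 minor
    intro hcon
    apply hK
    let A3 : Set V := h '' Set.Icc (k + 1) (m - 1)
    let A4 : Set V := comp G (Cᶜ \ A3) (h 1)
    let A2 : Set V := g '' Set.Icc 1 (n - 2)
    have hA3C : ∀ x ∈ A3, x ∉ C := by
      rintro _ ⟨i, ⟨hi1, hi2⟩, rfl⟩
      exact hout i (by omega) (by omega) (by omega)
    have hx0A3 : h 1 ∉ A3 := by
      rintro ⟨i, ⟨hi1, hi2⟩, hi3⟩
      have := hh.inj _ _ (by omega) (by omega) hi3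
      omega
    have hx0S : h 1 ∈ Cᶜ \ A3 := ⟨hx0C, hx0A3⟩
    have hA4 : ∀ x ∈ A4, x ∈ Cᶜ \ A3 := fun x hx => comp_sub hx0S hx
    have hA4arc : ∀ i, 1 ≤ i → i < k → h i ∈ A4 := by
      refine harc1 _ (fun i h1 h2 => ⟨hC1 i h1 h2, ?_⟩)
      rintro ⟨j, ⟨hj1, hj2⟩, hj3⟩
      have := hh.inj _ _ (by omega) (by omega) hj3
      omega
    obtain ⟨p, hp, q, hq, hpq⟩ : ∃ p ∈ A4, ∃ q ∈ A3, G.Adj p q := by
      rcases exit (T := A3) (S := Cᶜ) hx0C hx0A3 hcon with h1 | h1
      · exfalso
        exact (hA4 _ h1).2 ⟨k + 1, ⟨le_rfl, by omega⟩, rfl⟩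
      · exact h1
    have hgC : ∀ i, i < n → g i ∈ C := fun i hi => (hC _).2 ⟨i, hi, rfl⟩
    have hA2C : ∀ x ∈ A2, x ∈ C := by
      rintro _ ⟨i, ⟨hi1, hi2⟩, rfl⟩
      exact hgC i (by omega)
    have hgstep : ∀ i, i + 1 < n → G.Adj (g i) (g (i + 1)) := by
      intro i hi
      rw [hg.adj i (i + 1) (by omega) hi]
      left
      rw [Nat.mod_eq_of_lt hi]
    have hu_in : ∀ i, i < m → G.Adj (g 0) (h i) := fun i hi => (hlink _).2 ⟨i, hi, rfl⟩
    -- disjointness data
    have d01 : g 0 ≠ g (n - 1) := by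
      intro h1
      have := hg.inj _ _ (by omega) (by omega) h1
      omega
    have d02 : g 0 ∉ A2 := by
      rintro ⟨i, ⟨hi1, hi2⟩, hi3⟩
      have := hg.inj _ _ (by omega) (by omega) hi3
      omega
    have d12 : g (n - 1) ∉ A2 := by
      rintro ⟨i, ⟨hi1, hi2⟩, hi3⟩
      have := hg.inj _ _ (by omega) (by omega) hi3
      omega
    have hu0 : g 0 ∈ C := hgC 0 (by omega)
    have ha0 : g (n - 1) ∈ C := hgC (n - 1) (by omega)
    have hb2 : g 1 ∈ A2 := ⟨1, ⟨le_rfl, by omega⟩, rfl⟩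
    let A : Fin 5 → Set V := ![{g 0}, {g (n - 1)}, A2, A3, A4]
    have hsing : ∀ v : V, (G.induce ({v} : Set V)).Connected := by
      intro v
      haveI : Nonempty ({v} : Set V) := ⟨⟨v, rfl⟩⟩
      refine ⟨fun a b => ?_⟩
      have : a = b := Subtype.ext (a.2.trans b.2.symm)
      rw [this]
    refine ⟨A, ?_, ?_, ?_⟩
    · intro i
      fin_cases i
      · exact hsing _
      · exact hsing _
      · exact arc_conn g 1 (n - 2) (by omega) (fun i h1 h2 => hgstep i (by omega))
      · exact arc_conn h (k + 1) (m - 1) (by omega) (fun i h1 h2 => hstep i (by omega))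
      · exact comp_conn
    · have key : ∀ i j : Fin 5, i < j → Disjoint (A i) (A j) := by
        intro i j hij
        rw [Set.disjoint_left]
        fin_cases i <;> fin_cases j <;> first
          | exact absurd hij (by decide)
          | skip
        · rintro x rfl hx; exact d01 hx
        · rintro x rfl hx; exact d02 hx
        · rintro x rfl hx; exact hA3C _ hx hu0
        · rintro x rfl hx; exact (hA4 _ hx).1 hu0
        · rintro x rfl hx; exact d12 hx
        · rintro x rfl hx; exact hA3C _ hx ha0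
        · rintro x rfl hx; exact (hA4 _ hx).1 ha0
        · intro x hx hx'; exact hA3C _ hx' (hA2C _ hx)
        · intro x hx hx'; exact (hA4 _ hx').1 (hA2C _ hx)
        · intro x hx hx'; exact (hA4 _ hx').2 hx
      intro i j hij
      rcases lt_or_gt_of_ne hij with h1 | h1
      · exact key i j h1
      · exact (key j i h1).symm
    · have key : ∀ i j : Fin 5, i < j → ∃ u ∈ A i, ∃ v ∈ A j, G.Adj u v := by
        intro i j hij
        fin_cases i <;> fin_cases j <;> first
          | exact absurd hij (by decide)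
          | skip
        · exact ⟨g 0, rfl, g (n - 1), rfl, (hadj0 (n - 1) (by omega)).2 (Or.inr rfl)⟩
        · exact ⟨g 0, rfl, g 1, hb2, (hadj0 1 (by omega)).2 (Or.inl rfl)⟩
        · exact ⟨g 0, rfl, h (k + 1), ⟨k + 1, ⟨le_rfl, by omega⟩, rfl⟩, hu_in _ (by omega)⟩
        · exact ⟨g 0, rfl, h 1, hA4arc 1 le_rfl (by omega), hu_in _ (by omega)⟩
        · refine ⟨g (n - 1), rfl, g (n - 2), ⟨n - 2, ⟨by omega, le_rfl⟩, rfl⟩, ?_⟩
          have := hgstep (n - 2) (by omega)
          have e : n - 2 + 1 = n - 1 := by omega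
          rw [e] at this
          exact this.symm
        · refine ⟨g (n - 1), rfl, h (m - 1), ⟨m - 1, ⟨by omega, le_rfl⟩, rfl⟩, ?_⟩
          rw [← h0]
          exact hlast.symm
        · refine ⟨g (n - 1), rfl, h 1, hA4arc 1 le_rfl (by omega), ?_⟩
          rw [← h0]
          exact hstep 0 (by omega)
        · refine ⟨g 1, hb2, h (k + 1), ⟨k + 1, ⟨le_rfl, by omega⟩, rfl⟩, ?_⟩
          rw [← hkb]
          exact hstep k (by omega)
        · refine ⟨g 1, hb2, h (k - 1), hA4arc (k - 1) (by omega) (by omega), ?_⟩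
          rw [← hkb]
          have := hstep (k - 1) (by omega)
          have e : k - 1 + 1 = k := by omega
          rw [e] at this
          exact this.symm
        · exact ⟨q, hq, p, hp, hpq.symm⟩
      intro i j hij
      rcases lt_or_gt_of_ne hij with h1 | h1
      · exact key i j h1
      · obtain ⟨u, hu, v, hv, huv⟩ := key j i h1
        exact ⟨v, hv, u, hu, huv.symm⟩
  · -- neighbours
    intro x hx hxC
    obtain ⟨i, hi, rfl⟩ := (hlink x).1 hx
    have hi0 : i ≠ 0 := by
      rintro rfl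
      apply hxC
      rw [h0]
      exact (hC _).2 ⟨n - 1, by omega, rfl⟩
    have hik : i ≠ k := by
      rintro rfl
      apply hxC
      rw [hkb]
      exact (hC _).2 ⟨1, by omega, rfl⟩
    rcases lt_or_gt_of_ne hik with h1 | h1
    · exact Or.inl (harc1 _ hC1 i (by omega) h1)
    · exact Or.inr (harc2 i (by omega) hi)
  · -- apexes
    intro z hz huz
    obtain ⟨j, hj, rfl⟩ := (hC z).1 hz
    have hu_in : ∀ i, i < m → G.Adj (h i) (g 0) := fun i hi => ((hlink _).2 ⟨i, hi, rfl⟩).symm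
    rcases (hadj0 j hj).1 huz with h1 | h1
    · subst h1
      constructor
      · refine ⟨h (k - 1), harc1 _ hC1 (k - 1) (by omega) (by omega), hu_in _ (by omega), ?_⟩
        rw [← hkb]
        have := hstep (k - 1) (by omega)
        have e : k - 1 + 1 = k := by omega
        rwa [e] at this
      · refine ⟨h (k + 1), harc2 (k + 1) le_rfl (by omega), hu_in _ (by omega), ?_⟩
        rw [← hkb]
        exact (hstep k (by omega)).symm
    · subst h1
      constructor
      · refine ⟨h 1, harc1 _ hC1 1 le_rfl (by omega), hu_in _ (by omega), ?_⟩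
        rw [← h0]
        exact (hstep 0 (by omega)).symm
      · refine ⟨h (m - 1), harc2 (m - 1) (by omega) (by omega), hu_in _ (by omega), ?_⟩
        rw [← h0]
        exact hlast

/-- **SEP.** -/
theorem sep (hNK : NoK5Statement) (hL : LinkApi) : SeparationStatement := by
  intro V G hM C hC
  have hK := hNK V G hM
  obtain ⟨f, hf, hfC⟩ := exists_cyc hC
  set n := C.length with hn
  have hn4 := hf.four
  have hnpos : 0 < n := by omega
  let CS : Set V := {x | x ∈ C}
  have hCS : ∀ x, x ∈ CS ↔ ∃ i < n, f i = x := fun x => (hfC x).symm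
  -- local structure at every vertex
  have hloc : ∀ u ∈ CS, ∃ x0 y0, Local G CS u x0 y0 := by
    intro u hu
    obtain ⟨r, hr, hru⟩ := (hCS u).1 hu
    let g : ℕ → V := fun i => f ((i + r) % n)
    have hg : Cyc G n g := cyc_shift hf r
    have hg0 : g 0 = u := by
      show f ((0 + r) % n) = u
      rw [zero_add, Nat.mod_eq_of_lt hr, hru]
    have hgC : ∀ x, x ∈ CS ↔ ∃ i < n, g i = x := by
      intro x
      rw [hCS]
      exact (mem_shift hnpos r x).symm
    obtain ⟨l, hl⟩ := hM.link u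
    obtain ⟨e, he, hel⟩ := exists_cyc hl.toIsIndCycle
    have hlpos : 0 < l.length := by have := he.four; omega
    have hadj : G.Adj (g 0) (g (n - 1)) := by
      rw [hg.adj 0 (n - 1) (by omega) (by omega)]
      right
      rw [Nat.sub_add_cancel (by omega : 1 ≤ n), Nat.mod_self]
    have hmem : g (n - 1) ∈ l := (hl.mem _).2 (by rw [← hg0]; exact hadj)
    obtain ⟨s, hs, hse⟩ := (hel _).2 hmem
    let h : ℕ → V := fun i => e ((i + s) % l.length)
    have hh : Cyc G l.length h := cyc_shift he s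
    have hlink : ∀ x, G.Adj (g 0) x ↔ ∃ i < l.length, h i = x := by
      intro x
      rw [hg0, ← hl.mem, ← hel]
      exact (mem_shift hlpos s x).symm
    have h0 : h 0 = g (n - 1) := by
      show e ((0 + s) % l.length) = g (n - 1)
      rw [zero_add, Nat.mod_eq_of_lt hs, hse]
    have := local_of hK hg hh hlink h0 hgC
    rwa [hg0] at this
  -- the same two components at every vertex
  obtain ⟨x0, y0, hx0⟩ := hloc (f 0) ((hCS _).2 ⟨0, hnpos, rfl⟩)
  have hall : ∀ i, i < n → Local G CS (f i) x0 y0 := by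
    intro i
    induction i with
    | zero => intro _; exact hx0
    | succ i ih =>
      intro hi
      have h1 := ih (by omega)
      have hz : f i ∈ CS := (hCS _).2 ⟨i, by omega, rfl⟩
      have hz' : f (i + 1) ∈ CS := (hCS _).2 ⟨i + 1, hi, rfl⟩
      have hadj : G.Adj (f i) (f (i + 1)) := by
        rw [hf.adj i (i + 1) (by omega) hi]
        left
        rw [Nat.mod_eq_of_lt hi]
      obtain ⟨⟨p, hp, hp1, hp2⟩, ⟨q, hq, hq1, hq2⟩⟩ := h1.apex _ hz' hadj
      obtain ⟨x1, y1, h2⟩ := hloc (f (i + 1)) hz'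
      obtain ⟨⟨p', hp', hp1', hp2'⟩, ⟨q', hq', hq1', hq2'⟩⟩ := h2.apex _ hz hadj.symm
      obtain ⟨l, hl⟩ := hM.link (f i)
      obtain ⟨α, β, hαβ, -, hcom⟩ := hL.common V G (f i) (f (i + 1)) l hl hadj
      have e1 := (hcom p).1 ⟨hp1, hp2⟩
      have e2 := (hcom q).1 ⟨hq1, hq2⟩
      have e3 := (hcom p').1 ⟨hp2', hp1'⟩
      have e4 := (hcom q').1 ⟨hq2', hq1'⟩
      have hpq : p ≠ q := by
        rintro rfl
        apply h1.ne
        rw [← comp_eq hp, comp_eq hq]
        exact comp_self _ _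
      have hpq' : p' ≠ q' := by
        rintro rfl
        apply h2.ne
        rw [← comp_eq hp', comp_eq hq']
        exact comp_self _ _
      -- either p = p', q = q' or p = q', q = p'
      have hcase : (p = p' ∧ q = q') ∨ (p = q' ∧ q = p') := by
        rcases e1 with rfl | rfl <;> rcases e2 with rfl | rfl <;> rcases e3 with rfl | rfl <;>
          rcases e4 with rfl | rfl <;> simp_all
      have hx : ∀ {a b c : V}, b ∈ comp G CSᶜ a → b ∈ comp G CSᶜ c → a ∈ comp G CSᶜ c := by
        intro a b c hb hc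
        rw [← comp_eq hc, comp_eq hb]
        exact comp_self _ _
      rcases hcase with ⟨rfl, rfl⟩ | ⟨rfl, rfl⟩
      · exact h2.trans (hx hp hp') (hx hq hq')
      · exact h2.symm.trans (hx hp hq') (hx hq hp')
  have hall' : ∀ z ∈ CS, Local G CS z x0 y0 := by
    intro z hz
    obtain ⟨i, hi, rfl⟩ := (hCS z).1 hz
    exact hall i hi
  have hL0 := hall 0 hnpos
  have hsubX : ∀ v ∈ comp G CSᶜ x0, v ∉ C := fun v hv => comp_sub (S := CSᶜ) hL0.hx hv
  have hsubY : ∀ v ∈ comp G CSᶜ y0, v ∉ C := fun v hv => comp_sub (S := CSᶜ) hL0.hy hv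
  have hdisj : ∀ v ∈ comp G CSᶜ x0, v ∉ comp G CSᶜ y0 := by
    intro v hv hv'
    apply hL0.ne
    rw [← comp_eq hv, comp_eq hv']
    exact comp_self _ _
  -- every vertex of the cycle has a neighbour on the cycle
  have hnb : ∀ z ∈ C, ∃ z' ∈ C, G.Adj z z' := by
    intro z hz
    obtain ⟨i, hi, rfl⟩ := (hCS z).1 hz
    refine ⟨f ((i + 1) % n), (hfC _).1 ⟨(i + 1) % n, Nat.mod_lt _ hnpos, rfl⟩, ?_⟩
    rw [hf.adj i _ hi (Nat.mod_lt _ hnpos)]
    exact Or.inl rfl
  refine ⟨comp G CSᶜ x0, comp G CSᶜ y0, ?_⟩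
  refine ⟨comp_conn, comp_conn, ?_, hsubX, hsubY, hdisj, ?_, ?_, ?_, ?_, ?_⟩
  · -- cover
    intro v
    by_cases hv : v ∈ C
    · exact Or.inl hv
    right
    have hvS : v ∈ CSᶜ := hv
    -- the component of v has a neighbour in C
    obtain ⟨w, hw, z, hz, hwz⟩ : ∃ w ∈ comp G CSᶜ v, ∃ z ∈ CS, G.Adj w z := by
      by_contra hcon
      push Not at hcon
      have hclosed : ∀ w, G.Reachable v w → w ∈ comp G CSᶜ v := by
        intro w hw
        obtain ⟨W⟩ := hw
        have : ∀ (a b : V) (W : G.Walk a b), a ∈ comp G CSᶜ v → b ∈ comp G CSᶜ v := by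
          intro a b W
          induction W with
          | nil => exact id
          | @cons a c b hac _ ih =>
            intro ha
            apply ih
            have hc : c ∉ CS := fun hc => hcon a ha c hc hac
            exact comp_step ha hac (comp_sub hvS ha) hc
        exact this v w W (comp_self _ _)
      have h1 := hclosed (f 0) (hM.conn.preconnected v (f 0))
      exact (comp_sub hvS h1) ((hCS _).2 ⟨0, hnpos, rfl⟩)
    have hwC : w ∉ CS := comp_sub hvS hw
    rcases (hall' z hz).nbr w hwz.symm hwC with h1 | h1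
    · left
      rw [← comp_eq h1, comp_eq hw]
      exact comp_self _ _
    · right
      rw [← comp_eq h1, comp_eq hw]
      exact comp_self _ _
  · -- sep
    intro x hx y hy hxy
    have := comp_step hx hxy (hsubX x hx) (hsubY y hy)
    exact hdisj y this hy
  · intro z hz
    obtain ⟨z', hz', hzz⟩ := hnb z hz
    obtain ⟨⟨p, hp, hp1, -⟩, -⟩ := (hall' z hz).apex z' hz' hzz
    exact ⟨p, hp, hp1.symm⟩
  · intro z hz
    obtain ⟨z', hz', hzz⟩ := hnb z hz
    obtain ⟨-, ⟨p, hp, hp1, -⟩⟩ := (hall' z hz).apex z' hz' hzz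
    exact ⟨p, hp, hp1.symm⟩
  · intro z hz z' hz' hzz
    exact ((hall' z hz).apex z' hz' hzz).1
  · intro z hz z' hz' hzz
    exact ((hall' z hz).apex z' hz' hzz).2

end StrongArb.H16
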